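import Pool.Agent.H90.RC.Defs

/-!
A monotone Boolean circuit is a monotone real circuit of the same size (`min` for AND, `max` for
OR).
-/

namespace Pool.H66.RB

open Pool.H66.RZ Pool.H90.RC

/-- The real value of a bit. -/
def bit (b : Bool) : ℝ := if b = true then 1 else 0

/-- The real wire of a Boolean wire. -/
def toRWire {ι : Type} : Wire ι → RWire ι
  | .const b => .const (bit b)
  | .input i => .input i
  | .gate j => .gate j

/-- The real gate of a Boolean gate: `min` for AND, `max` for OR. -/
noncomputable def toRGate {ι : Type} (g : Gate ι) : RGate ι where
  fn a b := if g.conj = true then min a b else max a b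
  mono a a' b b' h h' := by
    split_ifs
    · exact min_le_min h h'
    · exact max_le_max h h'
  left := toRWire g.left
  right := toRWire g.right

/-- The real circuit of a Boolean circuit. -/
noncomputable def toReal {ι : Type} (K : MonotoneCircuit ι) : RCircuit ι where
  gates := K.gates.map toRGate
  out := toRWire K.out

theorem size_toReal {ι : Type} (K : MonotoneCircuit ι) : (toReal K).size = K.size := by
  simp [toReal, RCircuit.size, MonotoneCircuit.size]

private lemma getD_bit (l : List Bool) (j : ℕ) : (l.map bit).getD j 0 = bit (l.getD j false) := by
  induction l generalizing j with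
  | nil => simp [bit]
  | cons a l ih =>
    cases j with
    | zero => simp
    | succ j => simpa using ih j

theorem wire_val {ι : Type} (x : ι → Bool) (vals : List Bool) (W : Wire ι) :
    (toRWire W).val x (vals.map bit) = bit (W.val x vals) := by
  rcases W with b | i | j
  · rfl
  · rfl
  · exact getD_bit vals j

theorem gate_val {ι : Type} (x : ι → Bool) (vals : List Bool) (g : Gate ι) :
    (toRGate g).val x (vals.map bit) = bit (g.val x vals) := by
  unfold RGate.val toRGate Gate.val
  simp only [wire_val]
  cases h : g.conj <;> cases g.left.val x vals <;> cases g.right.val x vals <;> simp [bit]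

theorem run_val {ι : Type} (x : ι → Bool) (gs : List (Gate ι)) (vals : List Bool) :
    rrun x (gs.map toRGate) (vals.map bit) = (run x gs vals).map bit := by
  induction gs generalizing vals with
  | nil => rfl
  | cons g gs ih =>
    have h : vals.map bit ++ [(toRGate g).val x (vals.map bit)] =
        (vals ++ [g.val x vals]).map bit := by
      rw [gate_val, List.map_append, List.map_singleton]
    show rrun x (gs.map toRGate) (vals.map bit ++ [(toRGate g).val x (vals.map bit)]) =
      (run x gs (vals ++ [g.val x vals])).map bit
    rw [h, ih]

theorem eval_toReal {ι : Type} (K : MonotoneCircuit ι) (x : ι → Bool) :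
    (toReal K).eval x = bit (K.eval x) := by
  show (toRWire K.out).val x (rrun x (K.gates.map toRGate) []) = bit (K.out.val x (run x K.gates []))
  rw [← wire_val]
  have := run_val x K.gates []
  rw [List.map_nil] at this
  rw [this]

/-- A separating Boolean circuit gives a separating real circuit. -/
theorem rseparates_toReal {N d R : ℕ} (K : MonotoneCircuit (Var N d R)) (ε : ℝ)
    (h : Separates K ε) : RSeparates (toReal K) ε := by
  intro Φ Ψ hΦ hΦ1 hΨ hΨε
  rw [eval_toReal, eval_toReal, h.1 Φ hΦ hΦ1, h.2 Ψ hΨ hΨε]
  simp [bit]

end Pool.H66.RB
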